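import Pool.Agent.Helper892.VE.Quot
import Pool.Agent.Helper892.ER.Prox

/-!
Heights of algebraic integers, and the Landen correspondence.
-/

set_option autoImplicit false

open NumberField Module Height Real

namespace Pool.Agent.Helper892.CO

variable {F : Type} [Field F] [NumberField F]

/-- the archimedean part of the height -/
noncomputable def ah (x : F) : ℝ := ∑ v : InfinitePlace F, (v.mult : ℝ) * log⁺ (v x)

lemma ah_eq {x : F} (hx : IsIntegral ℤ x) : ah x = logHeight₁ x := by
  have h0 : ∀ v : FinitePlace F, log⁺ (v x) = 0 := by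
    intro v
    rw [posLog_eq_zero_iff, abs_of_nonneg (apply_nonneg v x)]
    rw [← FinitePlace.mk_maximalIdeal v, Pool.Agent.Helper892.ER.mk_eq_av]
    exact Pool.Agent.Helper892.ER.av_int _ (⟨x, hx⟩ : 𝓞 F)
  rw [NumberField.logHeight₁_eq, finsum_congr h0, finsum_zero, add_zero]
  rfl

omit [NumberField F] in
lemma v_sub (v : InfinitePlace F) (x y : F) : v (x - y) ≤ v x + v y := by
  have h1 : v (x - y) ≤ v x + v (-y) := by
    rw [sub_eq_add_neg]
    exact v.1.add_le _ _
  have h2 : v (-y) = v y := v.1.map_neg y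
  rwa [h2] at h1

lemma sum_mult : ∑ v : InfinitePlace F, (v.mult : ℝ) = finrank ℚ F := by
  exact_mod_cast InfinitePlace.sum_mult_eq

lemma ah_le_of {x y : F} {c : ℝ} (h : ∀ v : InfinitePlace F, log⁺ (v x) ≤ log⁺ (v y) + c) :
    ah x ≤ ah y + c * finrank ℚ F := by
  unfold ah
  rw [← sum_mult, Finset.mul_sum, ← Finset.sum_add_distrib]
  refine Finset.sum_le_sum fun v _ => ?_
  have h1 : (0 : ℝ) ≤ v.mult := Nat.cast_nonneg _
  nlinarith [h v]

lemma log_norm (x : F) (hx : x ≠ 0) : Real.log |(Algebra.norm ℚ x : ℝ)| =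
    ∑ v : InfinitePlace F, (v.mult : ℝ) * Real.log (v x) := by
  have h := InfinitePlace.prod_eq_abs_norm x
  have h2 := congrArg Real.log h
  rw [Real.log_prod (fun v _ => pow_ne_zero _ (by simpa using hx))] at h2
  have h3 : Real.log |(Algebra.norm ℚ x : ℝ)| = Real.log ((|Algebra.norm ℚ x| : ℚ) : ℝ) := by
    push_cast
    rfl
  rw [h3, ← h2]
  refine Finset.sum_congr rfl fun v _ => ?_
  rw [Real.log_pow]

/-- the height is preserved by the correspondence -/
lemma ah_step {κ η y : F} (hκ : κ ≠ 0) (hη : η ≠ 0) (hn : |(Algebra.norm ℚ η : ℝ)| = 1) (hηκ : η = 1 + κ)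
    (hy : y * η ^ 2 = 4 * κ) : 2 * ah κ ≤ ah y + Real.log 2 * finrank ℚ F := by
  have h0 : ∑ v : InfinitePlace F, (v.mult : ℝ) * Real.log (v η) = 0 := by
    rw [← log_norm η hη, hn, Real.log_one]
  have key : ∀ v : InfinitePlace F, 2 * log⁺ (v κ) ≤ log⁺ (v y) + 2 * Real.log (v η) + Real.log 2 := by
    intro v
    set t := v κ with ht
    have ht0 : 0 < t := by
      rw [ht]
      exact InfinitePlace.pos_iff.2 hκ
    have he0 : 0 < v η := InfinitePlace.pos_iff.2 hη
    have h4 : v (4 : F) = 4 := by
      have := Pool.Agent.Helper892.VE.v_nat v 4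
      exact_mod_cast this
    have h5 : v y * v η ^ 2 = 4 * t := by
      have := congrArg v hy
      rwa [map_mul, map_pow, map_mul, h4] at this
    have h6 : t - 1 ≤ v η := by
      have h7 : v κ ≤ v η + v (1 : F) := by
        have : κ = η - 1 := by rw [hηκ]; ring
        rw [this]
        exact v_sub v _ _
      rw [map_one] at h7
      linarith
    have h6' : 1 - t ≤ v η := by
      have h7 : v (1 : F) ≤ v η + v κ := by
        have : (1 : F) = η - κ := by rw [hηκ]; ring
        rw [this]
        exact v_sub v _ _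
      rw [map_one] at h7
      linarith
    -- the two lower bounds
    have h8 : Real.log (4 * t) ≤ log⁺ (v y) + 2 * Real.log (v η) := by
      rw [← h5, Real.log_mul (by
        intro h
        rw [h, zero_mul] at h5
        linarith) (by positivity), Real.log_pow]
      push_cast
      have : Real.log (v y) ≤ log⁺ (v y) := le_max_right _ _
      linarith
    have h9 : 2 * Real.log (v η) ≤ log⁺ (v y) + 2 * Real.log (v η) := by
      have : 0 ≤ log⁺ (v y) := posLog_nonneg
      linarith
    have h10 : ∀ c : ℝ, 0 < c → c ≤ 2 * (4 * t) ∨ c ≤ 2 * (v η) ^ 2 →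
        Real.log c ≤ log⁺ (v y) + 2 * Real.log (v η) + Real.log 2 := by
      intro c hc h
      rcases h with h | h
      · have := Real.log_le_log hc h
        rw [Real.log_mul two_ne_zero (by positivity)] at this
        linarith
      · have := Real.log_le_log hc h
        rw [Real.log_mul two_ne_zero (by positivity), Real.log_pow] at this
        push_cast at this
        linarith
    rcases le_total 1 t with h | h
    · rw [posLog_eq_log (by rw [abs_of_pos ht0]; exact h)]
      have e1 : 2 * Real.log t = Real.log (t ^ 2) := by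
        rw [Real.log_pow]
        push_cast
        rfl
      rw [e1]
      apply h10 _ (by positivity)
      rcases le_total t 8 with h' | h'
      · left
        nlinarith
      · right
        nlinarith
    · have e1 : log⁺ t = 0 := by
        rw [posLog_eq_zero_iff, abs_of_pos ht0]
        exact h
      rw [e1, mul_zero, ← Real.log_one]
      apply h10 _ one_pos
      rcases le_total t (1 / 8) with h' | h'
      · right
        nlinarith
      · left
        nlinarith
  have h1 : 2 * ah κ ≤ ∑ v : InfinitePlace F, (v.mult : ℝ) * (log⁺ (v y) + 2 * Real.log (v η) +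
      Real.log 2) := by
    unfold ah
    rw [Finset.mul_sum]
    refine Finset.sum_le_sum fun v _ => ?_
    have h1 : (0 : ℝ) ≤ v.mult := Nat.cast_nonneg _
    nlinarith [key v]
  have h2 : ∑ v : InfinitePlace F, (v.mult : ℝ) * (log⁺ (v y) + 2 * Real.log (v η) +
      Real.log 2) = ah y + 2 * (∑ v : InfinitePlace F, (v.mult : ℝ) * Real.log (v η)) +
      Real.log 2 * finrank ℚ F := by
    unfold ah
    rw [← sum_mult, Finset.mul_sum, Finset.mul_sum, ← Finset.sum_add_distrib,
      ← Finset.sum_add_distrib]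
    refine Finset.sum_congr rfl fun v _ => ?_
    ring
  rw [h2, h0] at h1
  linarith

lemma ah_pow (x : F) (N : ℕ) : ah (x ^ N) = N * ah x := by
  unfold ah
  rw [Finset.mul_sum]
  refine Finset.sum_congr rfl fun v _ => ?_
  rw [map_pow, posLog_pow]
  ring

/-- roots of `λ (λ - 1) = u` -/
lemma ah_root {lam u : F} (h : lam * (lam - 1) = u) :
    ah u ≤ 2 * ah lam + Real.log 2 * finrank ℚ F := by
  unfold ah
  rw [← sum_mult, Finset.mul_sum, Finset.mul_sum, ← Finset.sum_add_distrib]
  refine Finset.sum_le_sum fun v _ => ?_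
  have h1 : (0 : ℝ) ≤ v.mult := Nat.cast_nonneg _
  have h2 : log⁺ (v u) ≤ log⁺ (v lam) + log⁺ (v (lam - 1)) := by
    rw [← h, map_mul]
    exact posLog_mul
  have h3 : v (lam - 1) ≤ v lam + 1 := by
    have := v_sub v lam 1
    rwa [map_one] at this
  have h4 : log⁺ (v (lam - 1)) ≤ Real.log 2 + log⁺ (v lam) := by
    refine (posLog_le_posLog (apply_nonneg v _) h3).trans ?_
    refine posLog_add.trans ?_
    rw [posLog_one, add_zero]
  nlinarith

lemma log_norm_le {u : F} {z : F} (hz : z = 1 + 4 * u) (hz0 : z ≠ 0) :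
    Real.log |(Algebra.norm ℚ z : ℝ)| ≤ ah u + Real.log 8 * finrank ℚ F := by
  rw [log_norm z hz0]
  unfold ah
  rw [← sum_mult, Finset.mul_sum, ← Finset.sum_add_distrib]
  refine Finset.sum_le_sum fun v _ => ?_
  have h1 : (0 : ℝ) ≤ v.mult := Nat.cast_nonneg _
  have h4 : v (4 : F) = 4 := by
    have := Pool.Agent.Helper892.VE.v_nat v 4
    exact_mod_cast this
  have h3 : v z ≤ 1 + 4 * v u := by
    rw [hz]
    have : v (1 + 4 * u) ≤ v 1 + v (4 * u) := v.1.add_le 1 (4 * u)
    rwa [map_one, map_mul, h4] at this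
  have h5 : Real.log (v z) ≤ log⁺ (v u) + Real.log 8 := by
    have h6 : Real.log (v z) ≤ log⁺ (v z) := le_max_right _ _
    have h7 := posLog_le_posLog (apply_nonneg v z) h3
    have h8 : log⁺ (1 + 4 * v u) ≤ Real.log 2 + log⁺ 1 + log⁺ (4 * v u) := posLog_add
    have h9 : log⁺ (((4 : ℕ) : ℝ) * v u) ≤ Real.log (4 : ℕ) + log⁺ (v u) := posLog_nat_mul
    push_cast at h9
    rw [posLog_one] at h8
    have h10 : Real.log 8 = Real.log 2 + Real.log 4 := by
      rw [← Real.log_mul (by norm_num) (by norm_num)]
      norm_num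
    linarith
  nlinarith

end Pool.Agent.Helper892.CO
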