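import Pool.Agent.Helper892.QR.FieldN
import Pool.Agent.Helper892.CO.Arch

/-!
Towers of radical extensions inside the complex numbers.
-/

set_option autoImplicit false

open NumberField Module IntermediateField Polynomial Height

namespace Pool.Agent.Helper892.CO

open Pool.Agent.Y733.VR Pool.Agent.Helper892.VE Pool.Agent.Helper892.QR

variable {k : Type} [Field k] [NumberField k] [Algebra k ℂ]

instance nf (E : IntermediateField k ℂ) [FiniteDimensional k E] : NumberField E :=
  NumberField.of_module_finite k E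

/-- the absolute height -/
noncomputable def hb {F : Type} [Field F] [NumberField F] (x : F) : ℝ := logHeight₁ x / finrank ℚ F

lemma hb_map {F F' : Type} [Field F] [NumberField F] [Field F'] [NumberField F'] [Algebra F F']
    (x : F) : hb (algebraMap F F' x) = hb x := by
  have h := lH_eq (k := F) F' x
  unfold lH at h
  unfold hb
  rw [← h, finrank_tower F F', div_div, mul_comm (finrank ℚ F : ℝ)]

lemma hb_le {E E' : IntermediateField k ℂ} [FiniteDimensional k E] [FiniteDimensional k E']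
    (h : E ≤ E') (x : ℂ) (hx : x ∈ E) : hb (⟨x, h hx⟩ : E') = hb (⟨x, hx⟩ : E) := by
  let _ : Algebra E E' := (inclusion h).toRingHom.toAlgebra
  exact hb_map (F := E) (F' := E') ⟨x, hx⟩

lemma ld_le_of_le {E E' : IntermediateField k ℂ} [FiniteDimensional k E] [FiniteDimensional k E']
    (h : E ≤ E') : ld E ≤ ld E' := by
  let _ : Algebra E E' := (inclusion h).toRingHom.toAlgebra
  exact ld_mono E E'

/-- one root -/
theorem adj (E : IntermediateField k ℂ) [FiniteDimensional k E] {N : ℕ} (hN : 1 ≤ N) (A : 𝓞 E)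
    (hA : A ≠ 0) (α : ℂ) (hα : α ^ N = ((A : E) : ℂ)) :
    ∃ (E' : IntermediateField k ℂ) (_ : FiniteDimensional k E'), E ≤ E' ∧ α ∈ E' ∧
      finrank k E' ≤ N * finrank k E ∧
      ld E' ≤ ld E + Real.log N +
        (N - 1 : ℝ) / N * (Real.log |(Algebra.norm ℚ (A : E) : ℝ)| / finrank ℚ E) := by
  have hroot : aeval α (X ^ N - C (A : E)) = 0 := by
    rw [map_sub, map_pow, aeval_X, aeval_C, hα]
    exact sub_self _
  have hmon : (X ^ N - C (A : E)).Monic := monic_X_pow_sub_C (A : E) (by omega)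
  have hia : IsIntegral E α := ⟨_, hmon, hroot⟩
  set L0 : IntermediateField E ℂ := E⟮α⟯ with hL0
  have : FiniteDimensional E L0 := adjoin.finiteDimensional hia
  have : NumberField L0 := NumberField.of_module_finite E L0
  set β : L0 := ⟨α, mem_adjoin_simple_self E α⟩ with hβ
  have hβ2 : β ^ N = algebraMap E L0 A := Subtype.ext hα
  have htop : E⟮β⟯ = ⊤ := by
    have h1 : IntermediateField.map L0.val E⟮β⟯ = L0 := by
      rw [adjoin_map, Set.image_singleton]
      rfl
    have h2 : IntermediateField.map L0.val (⊤ : IntermediateField E L0) = L0 := by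
      rw [← AlgHom.fieldRange_eq_map, fieldRange_val]
    exact IntermediateField.map_injective L0.val (h1.trans h2.symm)
  have hld := ld_root E L0 hN A hA β htop hβ2
  have hdeg : finrank E L0 ≤ N := by
    rw [hL0, adjoin.finrank hia]
    refine (natDegree_le_of_dvd (minpoly.dvd E α hroot) hmon.ne_zero).trans ?_
    rw [natDegree_X_pow_sub_C]
  have hfk : FiniteDimensional k L0 := FiniteDimensional.trans k E L0
  have hfk' : FiniteDimensional k (L0.restrictScalars k) := hfk
  refine ⟨L0.restrictScalars k, hfk', ?_, mem_adjoin_simple_self E α, ?_, hld⟩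
  · intro x hx
    exact L0.algebraMap_mem ⟨x, hx⟩
  · change finrank k L0 ≤ _
    rw [← finrank_mul_finrank k E L0, mul_comm]
    exact Nat.mul_le_mul_right _ hdeg

lemma norm_bound {F : Type} [Field F] [NumberField F] (A : 𝓞 F) (B : 𝓞 F) {c : ℕ} (hc : 1 ≤ c)
    (h : A * B = c) : A ≠ 0 ∧
    Real.log |(Algebra.norm ℚ (A : F) : ℝ)| / finrank ℚ F ≤ Real.log c := by
  have hcr : (0 : ℝ) < c := by exact_mod_cast hc
  have hAB : (A : F) * (B : F) = c := by
    have := congrArg (algebraMap (𝓞 F) F) h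
    rwa [map_mul, map_natCast] at this
  have hc0 : (c : F) ≠ 0 := Nat.cast_ne_zero.2 (by omega)
  have hA0 : (A : F) ≠ 0 := fun h0 => hc0 (by rw [← hAB, h0, zero_mul])
  have hB0 : (B : F) ≠ 0 := fun h0 => hc0 (by rw [← hAB, h0, mul_zero])
  refine ⟨fun h0 => hA0 (by rw [h0]; rfl), ?_⟩
  have h1 := congrArg (Algebra.norm ℚ) hAB
  rw [map_mul] at h1
  have h2 : Algebra.norm ℚ (c : F) = (c : ℚ) ^ finrank ℚ F := by
    have := Algebra.norm_algebraMap (R := ℚ) (S := F) (c : ℚ)
    rwa [map_natCast] at this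
  rw [h2] at h1
  have hB1 : (1 : ℝ) ≤ |(Algebra.norm ℚ (B : F) : ℝ)| := by
    have h3 : (Algebra.norm ℚ (B : F)) = ((Algebra.norm ℤ B : ℤ) : ℚ) :=
      (Algebra.coe_norm_int B).symm
    have h4 : Algebra.norm ℤ B ≠ 0 := by
      intro h0
      rw [h0, Int.cast_zero, Algebra.norm_eq_zero_iff] at h3
      exact hB0 h3
    rw [h3]
    have h5 := Int.one_le_abs h4
    exact_mod_cast h5
  have h6 : |(Algebra.norm ℚ (A : F) : ℝ)| * |(Algebra.norm ℚ (B : F) : ℝ)| =
      (c : ℝ) ^ finrank ℚ F := by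
    rw [← abs_mul]
    have h7 : (Algebra.norm ℚ (A : F) : ℝ) * (Algebra.norm ℚ (B : F) : ℝ) =
        (c : ℝ) ^ finrank ℚ F := by
      exact_mod_cast h1
    rw [h7, abs_of_pos (by positivity)]
  have hF : (0 : ℝ) < finrank ℚ F := by exact_mod_cast finrank_pos
  have hNA : 0 < |(Algebra.norm ℚ (A : F) : ℝ)| := by
    rw [abs_pos]
    have : Algebra.norm ℚ (A : F) ≠ 0 := by
      rw [Algebra.norm_ne_zero_iff]
      exact hA0
    exact_mod_cast this
  rw [div_le_iff₀ hF]
  have h8 : |(Algebra.norm ℚ (A : F) : ℝ)| ≤ (c : ℝ) ^ finrank ℚ F := by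
    rw [← h6]
    nlinarith
  have h9 := Real.log_le_log hNA h8
  rw [Real.log_pow] at h9
  linarith

/-- one root of a divisor of `c` -/
theorem adj' (E : IntermediateField k ℂ) [FiniteDimensional k E] {N : ℕ} (hN : 1 ≤ N) {c : ℕ}
    (hc : 1 ≤ c) (A B : ℂ) (hAE : A ∈ E) (hA : IsIntegral ℤ A) (hB : IsIntegral ℤ B)
    (hAB : A * B = c) (α : ℂ) (hα : α ^ N = A) :
    ∃ (E' : IntermediateField k ℂ) (_ : FiniteDimensional k E'), E ≤ E' ∧ α ∈ E' ∧
      finrank k E' ≤ N * finrank k E ∧ ld E' ≤ ld E + (Real.log N + Real.log c) := by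
  have hcC : (c : ℂ) ≠ 0 := Nat.cast_ne_zero.2 (by omega)
  have hA0 : A ≠ 0 := fun h0 => hcC (by rw [← hAB, h0, zero_mul])
  have hBE : B ∈ E := by
    have : B = c / A := by
      rw [← hAB]
      field_simp
    rw [this]
    exact div_mem (IntermediateField.natCast_mem E c) hAE
  have hi : ∀ z : E, IsIntegral ℤ (z : ℂ) → IsIntegral ℤ z := fun z hz =>
    (isIntegral_algHom_iff (E.val.restrictScalars ℤ) Subtype.val_injective).1 hz
  set A' : 𝓞 E := ⟨⟨A, hAE⟩, hi _ hA⟩ with hA'
  set B' : 𝓞 E := ⟨⟨B, hBE⟩, hi _ hB⟩ with hB'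
  have hAB' : A' * B' = c := by
    apply RingOfIntegers.ext
    apply Subtype.ext
    have : (((c : 𝓞 E) : E) : ℂ) = (c : ℂ) := by
      have h0 : ((c : 𝓞 E) : E) = (c : E) := map_natCast (algebraMap (𝓞 E) E) c
      rw [h0]
      exact map_natCast E.val c
    rw [this, ← hAB]
    rfl
  obtain ⟨h1, h2⟩ := norm_bound A' B' hc hAB'
  obtain ⟨E', hE', h3, h4, h5, h6⟩ := adj E hN A' h1 α hα
  refine ⟨E', hE', h3, h4, h5, h6.trans ?_⟩
  have hNr : (1 : ℝ) ≤ N := by exact_mod_cast hN
  have h7 : (0 : ℝ) ≤ (N - 1 : ℝ) / N := div_nonneg (by linarith) (by linarith)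
  have h8 : (N - 1 : ℝ) / N ≤ 1 := by
    rw [div_le_one (by linarith)]
    linarith
  have h9 : 0 ≤ Real.log c := Real.log_nonneg (by exact_mod_cast hc)
  have h10 := mul_le_mul_of_nonneg_left h2 h7
  nlinarith

/-- several roots -/
theorem adjs (E0 : IntermediateField k ℂ) [FiniteDimensional k E0] {N : ℕ} (hN : 1 ≤ N) {c : ℕ}
    (hc : 1 ≤ c) (l : ℕ) (α A B : ℕ → ℂ) (hα : ∀ i < l, α i ^ N = A i)
    (hAE : ∀ i < l, ∀ E : IntermediateField k ℂ, E0 ≤ E → (∀ j < i, α j ∈ E) → A i ∈ E)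
    (hA : ∀ i < l, IsIntegral ℤ (A i)) (hB : ∀ i < l, IsIntegral ℤ (B i))
    (hAB : ∀ i < l, A i * B i = c) :
    ∃ (E : IntermediateField k ℂ) (_ : FiniteDimensional k E), E0 ≤ E ∧ (∀ i < l, α i ∈ E) ∧
      finrank k E ≤ N ^ l * finrank k E0 ∧ ld E ≤ ld E0 + l * (Real.log N + Real.log c) := by
  induction l with
  | zero => exact ⟨E0, inferInstance, le_rfl, by simp, by simp, by simp⟩
  | succ l ih =>
    obtain ⟨E, hE, h1, h2, h3, h4⟩ := ih (fun i hi => hα i (by omega)) (fun i hi => hAE i (by omega))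
      (fun i hi => hA i (by omega)) (fun i hi => hB i (by omega)) (fun i hi => hAB i (by omega))
    obtain ⟨E', hE', h5, h6, h7, h8⟩ := adj' E hN hc (A l) (B l) (hAE l (by omega) E h1 h2)
      (hA l (by omega)) (hB l (by omega)) (hAB l (by omega)) (α l) (hα l (by omega))
    refine ⟨E', hE', h1.trans h5, ?_, ?_, ?_⟩
    · intro i hi
      rcases Nat.lt_succ_iff_lt_or_eq.1 hi with h | h
      · exact h5 (h2 i h)
      · rw [h]
        exact h6
    · refine h7.trans ?_
      rw [pow_succ, mul_comm (N ^ l) N, mul_assoc]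
      exact Nat.mul_le_mul_left _ h3
    · push_cast
      linarith

end Pool.Agent.Helper892.CO
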